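import Pool.Agent.V1157.BD.Main

/-!
# The Tate conjecture for divisors holds if its defects are bounded in each dimension

Let `k` be a field (for the problem: finitely generated), `H` the `ℓ`-adic cohomology, `ℓ ≠ char k`, of the smooth
projective varieties over `k`, with the Galois-invariant classes as distinguished classes, and let `n ≥ 1` and
`r` be integers (for the problem: `r = 1`, all `n`). The following are equivalent:

1. on all varieties of dimension `n` the distinguished classes of codimension `r` are algebraic;
2. the dimensions of the spaces of distinguished classes modulo algebraic classes (for `r = 1`: of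
   `V_ℓ Br(X_{k^s})^{G_k}`) are bounded, by a bound valid for all varieties of dimension `n`;
3. self-correspondences of degree zero act on distinguished classes modulo algebraic classes through
   commuting operators;
4. these operators satisfy some non-zero multilinear polynomial identity.

In particular: if there is a function `D` such that `dim V_ℓ Br(X_{k^s})^{G_k} ≤ D(dim X)` for all smooth projective
varieties `X` over `k`, then the Tate conjecture for divisors holds over `k`.

Proof (helper57, `MP_89bcae_ag.BoundedDefects`): if `t` is a class on `S` which is not algebraic, take a complete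
intersection `V` in `S^N`; its `N` projections `p_i` to `S` satisfy `p_i_* p_j^* = 0` modulo algebraic classes,
`i ≠ j`. So the classes `p_i^* t` on `V` are independent modulo algebraic classes, and the correspondences
`p_j^* p_i_*` act on them as matrix units.
-/

open CategoryTheory AlgebraicGeometry

universe u v w

namespace Pool.Agent.Results.MP_17a657_ag.BoundedDefects

open Pool.Agent.H914 Pool.Agent.H914.VarClass Pool.Agent.H914.VarClass.Obj Pool.Agent.W492.BB
  Pool.Agent.TH133 Pool.Agent.V1157.BD

/-- The first part: all classes of codimension `r` on all varieties of dimension at least one, with bounds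
depending on the dimension. The second part: fixed dimension. -/
theorem result {k : Type u} [Field k] {𝒱 : VarClass k} {C : TheoryData.{u, v, 0} 𝒱 ℚ}
    [IsChowProj C] {K : Type w} [Field K] {H : WeilTheoryData.{u, v, w} C K} [IsWeilProj H]
    (T : ClassFamily H) (r : ℕ)
    (hP : ∀ (S : 𝒱.Obj) (N : ℕ), 1 ≤ S.dim → HasPower C S.dim N S) :
    ((∀ n, 1 ≤ n → TateConj T n r) ↔ ∃ D : ℕ → ℕ, ∀ n, 1 ≤ n → DefectAtMost T n r (D n)) ∧
    ∀ n, 1 ≤ n → List.TFAE [TateConj T n r, ∃ D, DefectAtMost T n r D, Commuting T n r,
      ∃ (d : ℕ) (c : Equiv.Perm (Fin d) → K), c ≠ 0 ∧ PolyIdentity T n r d c] := by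
  have h : ∀ n, 1 ≤ n → List.TFAE [TateConj T n r, ∃ D, DefectAtMost T n r D, Commuting T n r,
      ∃ (d : ℕ) (c : Equiv.Perm (Fin d) → K), c ≠ 0 ∧ PolyIdentity T n r d c] := fun n hn =>
    main T fun S N hS => by
      have := hP S N (by omega)
      rwa [hS] at this
  have h12 : ∀ n, 1 ≤ n → (TateConj T n r ↔ ∃ D, DefectAtMost T n r D) := fun n hn =>
    (h n hn).out 0 1
  refine ⟨⟨fun h1 => ?_, ?_⟩, h⟩
  · choose! D hD using fun n (hn : 1 ≤ n) => (h12 n hn).1 (h1 n hn)
    exact ⟨D, hD⟩
  · rintro ⟨D, hD⟩ n hn
    exact (h12 n hn).2 ⟨D n, hD n hn⟩

end Pool.Agent.Results.MP_17a657_ag.BoundedDefects
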