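import Pool.Agent.V1178.TF.Main

/-!
# The Tate conjecture for divisors and free groups of motivic automorphisms

Fix a finitely generated field `k`, a dimension `n`, a codimension `r` (for the problem: `r = 1`), a
class `P` of smooth projective varieties (for example all of them) and `T X` the space of
Galois-invariant classes in `H^{2r}(X_{k^s}, ℚ_ℓ(r))`.
If `W` is a self-correspondence of degree zero of a variety `X` of dimension `n` which factors
through a variety of dimension `n` in `P`, and `W ∘ W = 0`, then `1 + W` is an automorphism of the
motive of `X`, and if `T Y` consists of algebraic classes for the varieties `Y` in `P` then it acts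
trivially on `T X` modulo algebraic classes. Conversely, `T Y` consists of algebraic classes for the
varieties `Y` of dimension `n` in `P` already if any two such automorphisms `1 + W_0`, `1 + W_1` of
any `X` satisfy a nontrivial relation on `T X` modulo algebraic classes (which may depend on `X`,
`W_0`, `W_1`), and even if they have no free orbit on the lines of this space.
-/

set_option autoImplicit false

open CategoryTheory AlgebraicGeometry

universe u v w

namespace Pool.Agent.Results.MP_17a657_ag.FreeSubgroups

open Pool.Agent.H914 Pool.Agent.H914.VarClass Pool.Agent.H914.VarClass.Obj Pool.Agent.W492.BB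
  Pool.Agent.TH133 Pool.Agent.V1157.RC Pool.Agent.V1178.TF

/-- Let `T` be a family of subspaces `T X ⊆ H^{2r}(X)`, for the varieties `X` of dimension `n`, which
is stable under correspondences of degree zero, and `P` a class of varieties of which those of
dimension `n` have sufficiently general complete intersections in `S × S` (`HasIntersection`, a
consequence of the theorem of Bertini). The following are equivalent:

* `T Y` consists of algebraic classes for all `Y` of dimension `n` in `P`;
* for all varieties `X` of dimension `n` and all self-correspondences `W_0`, `W_1` of `X` of degree
  zero which factor through varieties of dimension `n` in `P` and satisfy `W_i ∘ W_i = 0`, the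
  automorphisms `1 + W_0`, `1 + W_1` satisfy a nontrivial relation on `T X` modulo algebraic classes;
* for all such `X`, `W_0`, `W_1` and each `t` in `T X` there are a nontrivial element `w` of the free
  group of rank two and a scalar `c` such that `w(1 + W_0, 1 + W_1) t - c t` is algebraic. -/
theorem result {k : Type u} [Field k] {𝒱 : VarClass k} {C : TheoryData.{u, v, 0} 𝒱 ℚ}
    [IsChowProj C] {K : Type w} [Field K] {H : WeilTheoryData.{u, v, w} C K} [IsWeilProj H]
    (P : 𝒱.Obj → Prop) (n r : ℕ) (T : ∀ X : 𝒱.Obj, Submodule K (H.A X))
    (hT : IsTateFamily (C := C) (H := H) n r T)
    (hI : ∀ S : 𝒱.Obj, P S → S.dim = n → HasIntersection C n S S) :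
    List.TFAE [TateFor P n r T, NoFreePairs P n r T, NoFreeLines P n r T] :=
  main hT hI

end Pool.Agent.Results.MP_17a657_ag.FreeSubgroups
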