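import Pool.Agent.V1143.KC.Gen2

/-!
# The Tate conjecture for divisors for all fibred surfaces congruent to a given one

Let `k` be a finite field with `q` elements, `C` a curve over `k`, `K = k(C)`, and `X → C` a fibration of a surface
in curves, with the Jacobian `J` of the generic fibre, without constant part. For a finite extension `M` of
`K`, the function field of a curve `C'` over `k'`, let `X_M` be a smooth projective model of the fibre product of `X`
and `C'` over `C`. By the theorems of Artin, Tate and Milne the map `c` of the problem is surjective for `X_M` (for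
one prime, or for all primes) if and only if the rank of `J(M)` is the order of vanishing of
`L(J/M, T) = ∏ P'_w(T ^ (deg w))⁻¹` at `T = 1 / q'`, `q' = |k'|`; `rank ≤ order` is known. The theorem is about
any systems of Euler factors; `b = 1` and `V = W = 1` in this application.

Let `X₀` be one such surface whose `L`-function does not vanish modulo the prime `ℓ` at `1 / q`. The theorem: the
reductions of `J₀` decide for which surfaces `X_M`, with `X` congruent to `X₀` modulo `ℓ` and `M` any Galois extension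
of `K` of degree a power of `ℓ`, the central value is not divisible by `ℓ`; for all of them the map `c` is
surjective.
-/

set_option autoImplicit false

open Polynomial FF Module Pool.Agent.W343.BSD Pool.Agent.V1143.KC.KA

namespace Pool.Agent.Results.MP_17a657_ag.OneFibrationDecides

/-- `∏ P_v(T ^ (deg v))⁻¹ = U / V` with integral polynomials `P_v`, `U`, `V`, where `P_v(0) = V(0) = 1`. -/
structure LData (k : Type) {K : Type} [Field k] [Field K] [Algebra k K] (P : Place k K → ℤ[X])
    (U V : ℤ[X]) : Prop where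
  local_one : ∀ v, (P v).coeff 0 = 1
  den_one : V.coeff 0 = 1
  product : ∃ Λ : PowerSeries ℤ, IsProduct k P Λ ∧ Λ * (V : PowerSeries ℤ) = (U : PowerSeries ℤ)

/-- For the places `w` of `M` over places `v ∉ T` the reciprocal zeros of `P'_w` are the `f`-th powers of those
of `P_v`, where `f` is the residue degree. -/
def Lifts {k K k' M : Type} [Field k] [Field K] [Algebra k K] [Field k'] [Field M]
    [Algebra k' M] [Algebra K M] (T : Finset (Place k K)) (P : Place k K → ℤ[X])
    (P' : Place k' M → ℤ[X]) : Prop :=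
  ∀ (v : Place k K) (w : Place k' M) (e f : ℕ), v ∉ T → LiesOver w v e →
    Nat.card (S.Res w) = Nat.card (S.Res v) ^ f → IsPower f (P v) (P' w)

/-- The Euler factors `P_v` and `P⁰_v` are congruent modulo `ℓ` at the places which are not in `B`, and at the
places in `B` the multiplicity of the zero `q ^ (-b)` modulo `ℓ` of `P_v(T ^ (deg v))` is at least the one of
`P⁰_v(T ^ (deg v))`. -/
structure Congruent {k K : Type} [Field k] [Field K] [Algebra k K] (ℓ : ℕ) [Fact ℓ.Prime] (b : ℕ)
    (B : Finset (Place k K)) (P P₀ : Place k K → ℤ[X]) : Prop where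
  outside : ∀ v : Place k K, v ∉ B → (P v).map (Int.castRingHom (ZMod ℓ)) =
    (P₀ v).map (Int.castRingHom (ZMod ℓ))
  inside : ∀ v ∈ B, locMult ℓ b v (P₀ v) ≤ locMult ℓ b v (P v)

/-- The Euler factor `P⁰_v` is a unit modulo `ℓ` at the central point: `P⁰_v(q_v ^ (-b))` is not zero modulo `ℓ`.
If `b = 1` and `P⁰_v` is the characteristic polynomial of Frobenius of an abelian variety over the residue field,
this means that `ℓ` does not divide the number of its points. -/
def UnitAt {k K : Type} [Field k] [Field K] [Algebra k K] (ℓ : ℕ) [Fact ℓ.Prime] (b : ℕ)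
    (P₀ : Place k K → ℤ[X]) (v : Place k K) : Prop :=
  ((P₀ v).map (Int.castRingHom (ZMod ℓ))).eval (((Nat.card (S.Res v) : ℕ) : ZMod ℓ) ^ b)⁻¹ ≠ 0

/-- Let `P⁰_v` be Euler factors over `K` with the product `U⁰ / V⁰`, where `m(U⁰) = m(V⁰) = 0`; here `m` is the
multiplicity of the zero `q ^ (-b)` modulo `ℓ`, and over `M` of the zero `q' ^ (-b)`.

(1) Let `P_v` be any Euler factors congruent to them, with any exceptional set `B`, and the product `U / V` with
`m(V) = 0`. Then `m(U) = 0`, and `P_v(T ^ (deg v))` and `P⁰_v(T ^ (deg v))` have the same multiplicity at all `v`; so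
`P_v` is a unit at the central point if and only if `P⁰_v` is.

(2) Let `M` be any Galois extension of `K` of degree a power of `ℓ`, with any ramification and any field of
constants, with Euler factors `P'_w` which come from the `P_v` outside a finite set `T` (the places where the
reduction over `M` is better than over `K`), with the product `R / W` and `m(W) = 0`. Then `m(R) = 0` and `m_w = 0` for
the `w` over `T` if and only if `P⁰_v` is a unit at the central point for all `v` in `T` and all `v` which are ramified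
in `M`; and then `R` does not vanish at `q' ^ (-b)`, so that for fibred surfaces the rank of `J(M)` is `0` (Tate's
inequality) and `c` is surjective for `X_M`.

(3) One extension decides for others: let `M'` be another such extension, for any congruent system `Pt_v`, with
`m(R') = 0` and `m'_w = 0` for the `w` over `T'`. If all places which are ramified in `M` or lie in `T` are ramified
in `M'` or lie in `T'`, then `m(R) = 0`, `m_w = 0` for the `w` over `T`, and `R` does not vanish at `q' ^ (-b)`. -/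
theorem result (k K : Type) [Field k] [Finite k] [Field K] [Algebra k K] (hK : IsCurveField k K)
    (ℓ : ℕ) [Fact ℓ.Prime] (hℓ : (ℓ : k) ≠ 0) (b : ℕ) (P₀ : Place k K → ℤ[X]) (U₀ V₀ : ℤ[X])
    (h₀ : LData k P₀ U₀ V₀) (hU₀ : mult ℓ (Nat.card k) b U₀ = 0)
    (hV₀ : mult ℓ (Nat.card k) b V₀ = 0) :
    ∀ (P : Place k K → ℤ[X]) (U V : ℤ[X]), LData k P U V → mult ℓ (Nat.card k) b V = 0 →
      ∀ B : Finset (Place k K), Congruent ℓ b B P P₀ →
      -- (1)
      (mult ℓ (Nat.card k) b U = 0 ∧
        ∀ v : Place k K, locMult ℓ b v (P v) = locMult ℓ b v (P₀ v) ∧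
          (UnitAt ℓ b P v ↔ UnitAt ℓ b P₀ v)) ∧
      ∀ (k' M : Type) [Field k'] [Finite k'] [Field M] [Algebra k' M] [Algebra k k'] [Algebra k M]
        [Algebra K M] [IsScalarTower k K M] [IsScalarTower k k' M] [FiniteDimensional K M]
        [IsGalois K M] (s : ℕ) (T : Finset (Place k K)) (P' : Place k' M → ℤ[X]) (R W : ℤ[X]),
        IsCurveField k' M → finrank K M = ℓ ^ s → LData k' P' R W →
        mult ℓ (Nat.card k') b W = 0 → Lifts T P P' →
        -- (2)
        ((mult ℓ (Nat.card k') b R = 0 ∧ ∀ w ∈ Above k' M T, locMult ℓ b w (P' w) = 0) ↔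
          ∀ v : Place k K, v ∈ T ∨ ramIndex k' M v ≠ 1 → UnitAt ℓ b P₀ v) ∧
        (mult ℓ (Nat.card k') b R = 0 → order (Nat.card k') b R = 0) ∧
        -- (3)
        ∀ (Pt : Place k K → ℤ[X]) (Ut Vt : ℤ[X]), LData k Pt Ut Vt →
          mult ℓ (Nat.card k) b Vt = 0 → ∀ Bt : Finset (Place k K), Congruent ℓ b Bt Pt P₀ →
          ∀ (k'' M' : Type) [Field k''] [Finite k''] [Field M'] [Algebra k'' M'] [Algebra k k'']
            [Algebra k M'] [Algebra K M'] [IsScalarTower k K M'] [IsScalarTower k k'' M']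
            [FiniteDimensional K M'] [IsGalois K M'] (s' : ℕ) (T' : Finset (Place k K))
            (P'' : Place k'' M' → ℤ[X]) (R' W' : ℤ[X]),
            IsCurveField k'' M' → finrank K M' = ℓ ^ s' → LData k'' P'' R' W' →
            mult ℓ (Nat.card k'') b W' = 0 → Lifts T' Pt P'' →
            mult ℓ (Nat.card k'') b R' = 0 →
            (∀ w ∈ Above k'' M' T', locMult ℓ b w (P'' w) = 0) →
            (∀ v : Place k K, v ∈ T ∨ ramIndex k' M v ≠ 1 → v ∈ T' ∨ ramIndex k'' M' v ≠ 1) →
            mult ℓ (Nat.card k') b R = 0 ∧ (∀ w ∈ Above k' M T, locMult ℓ b w (P' w) = 0) ∧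
              order (Nat.card k') b R = 0 := by
  classical
  have i1 : FF.IsFF k K := ⟨hK.essFiniteType, hK.trdeg_eq_one⟩
  obtain ⟨hc₀, hV₀1, Λ₀, hΛ₀, hprod₀⟩ := h₀
  -- part (1)
  have one : ∀ (P : Place k K → ℤ[X]) (U V : ℤ[X]), LData k P U V →
      mult ℓ (Nat.card k) b V = 0 → ∀ B : Finset (Place k K), Congruent ℓ b B P P₀ →
      mult ℓ (Nat.card k) b U = 0 ∧
        ∀ v : Place k K, locMult ℓ b v (P v) = locMult ℓ b v (P₀ v) ∧
          (UnitAt ℓ b P v ↔ UnitAt ℓ b P₀ v) := by
    intro P U V h hV B hB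
    obtain ⟨hc, hV1, Λ, hΛ, hU⟩ := h
    have hsum := Pool.Agent.V1143.KC.Gen.gen_mult (l := ℓ) b hc hc₀ B hB.outside hΛ hΛ₀ hV1 hV₀1
      hU hprod₀
    rw [hV, hU₀, hV₀] at hsum
    have hle : ∑ v ∈ B, locMult ℓ b v (P₀ v) ≤ ∑ v ∈ B, locMult ℓ b v (P v) :=
      Finset.sum_le_sum hB.inside
    have heq : ∑ v ∈ B, locMult ℓ b v (P₀ v) = ∑ v ∈ B, locMult ℓ b v (P v) := by omega
    have hloc : ∀ v : Place k K, locMult ℓ b v (P v) = locMult ℓ b v (P₀ v) := by
      intro v
      by_cases hv : v ∈ B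
      · exact ((Finset.sum_eq_sum_iff_of_le hB.inside).1 heq v hv).symm
      · unfold locMult mult
        rw [Polynomial.map_expand, Polynomial.map_expand, hB.outside v hv]
    refine ⟨by omega, fun v => ⟨hloc v, ?_⟩⟩
    have h1 := Pool.Agent.V1143.KC.Gen.locMult_unit (ℓ := ℓ) b v (P v) (hc v)
    have h2 := Pool.Agent.V1143.KC.Gen.locMult_unit (ℓ := ℓ) b v (P₀ v) (hc₀ v)
    unfold UnitAt
    rw [← h1, ← h2, hloc v]
  -- part (2)
  have two : ∀ (P : Place k K → ℤ[X]) (U V : ℤ[X]), LData k P U V →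
      mult ℓ (Nat.card k) b V = 0 → ∀ B : Finset (Place k K), Congruent ℓ b B P P₀ →
      ∀ (k' M : Type) [Field k'] [Finite k'] [Field M] [Algebra k' M] [Algebra k k'] [Algebra k M]
        [Algebra K M] [IsScalarTower k K M] [IsScalarTower k k' M] [FiniteDimensional K M]
        [IsGalois K M] (s : ℕ) (T : Finset (Place k K)) (P' : Place k' M → ℤ[X]) (R W : ℤ[X]),
        IsCurveField k' M → finrank K M = ℓ ^ s → LData k' P' R W →
        mult ℓ (Nat.card k') b W = 0 → Lifts T P P' →
        ((mult ℓ (Nat.card k') b R = 0 ∧ ∀ w ∈ Above k' M T, locMult ℓ b w (P' w) = 0) ↔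
          ∀ v : Place k K, v ∈ T ∨ ramIndex k' M v ≠ 1 → UnitAt ℓ b P₀ v) ∧
        (mult ℓ (Nat.card k') b R = 0 → order (Nat.card k') b R = 0) := by
    intro P U V h hV B hB k' M _ _ _ _ _ _ _ _ _ _ _ s T P' R W hM hdeg h' hW hl
    obtain ⟨hU0, hv1⟩ := one P U V h hV B hB
    obtain ⟨hc, hV1, Λ, hΛ, hU⟩ := h
    obtain ⟨hc', hW1, Λ', hΛ', hR⟩ := h'
    obtain ⟨c1, c2, c3, c4, c5, c6, c7, c8⟩ := kida_gen k K k' M hK hM ℓ s hℓ hdeg b P P' hc hc' T
      hl Λ Λ' hΛ hΛ' U V R W hV1 hU hW1 hR
    refine ⟨?_, c8⟩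
    rw [c7 hV hW]
    constructor
    · rintro ⟨-, h2, h3⟩ v hv
      rw [← (hv1 v).2]
      unfold UnitAt
      rw [← c4 v]
      by_cases hvT : v ∈ T
      · exact h2 v hvT
      · exact h3 v hvT (hv.resolve_left hvT)
    · intro h1
      refine ⟨hU0, fun v hv => ?_, fun v hvT hv => ?_⟩
      · rw [c4 v]
        exact (hv1 v).2.2 (h1 v (Or.inl hv))
      · rw [c4 v]
        exact (hv1 v).2.2 (h1 v (Or.inr hv))
  intro P U V h hV B hB
  refine ⟨one P U V h hV B hB, ?_⟩
  intro k' M _ _ _ _ _ _ _ _ _ _ _ s T P' R W hM hdeg h' hW hl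
  obtain ⟨g1, g2⟩ := two P U V h hV B hB k' M s T P' R W hM hdeg h' hW hl
  refine ⟨g1, g2, ?_⟩
  intro Pt Ut Vt ht hVt Bt hBt k'' M' _ _ _ _ _ _ _ _ _ _ _ s' T' P'' R' W' hM' hdeg' h'' hW' hl'
    hR' hw' hram
  obtain ⟨f1, f2⟩ := two Pt Ut Vt ht hVt Bt hBt k'' M' s' T' P'' R' W' hM' hdeg' h'' hW' hl'
  have f3 := f1.1 ⟨hR', hw'⟩
  obtain ⟨e1, e2⟩ := g1.2 fun v hv => f3 v (hram v hv)
  exact ⟨e1, e2, g2 e1⟩

end Pool.Agent.Results.MP_17a657_ag.OneFibrationDecides
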